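import Pool.Agent.TH710.PHP.Final

/-!
# MP_c109c8_lc: statement (A) holds and statement (B) fails

All definitions are in `Pool/Agent/TH710/PHP/Defs.lean`:

* `Fm α`: formulas with `¬` and unbounded `∧`, `∨`; `Fm.depth`: number of alternations of `∧`, `∨`,
  negations being pushed to the variables; `Fm.size`: number of symbols;
* `Local`, `Inferred`: the sound inferences, which only depend on the meaning of the outermost
  connectives of at most `c` subformulas and have at most `c` premises, or are case distinctions
  for a conjunction or disjunction of unbounded fan-in (with any number of premises). Every Frege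
  system with finitely many sound rule schemes and every sequent calculus with the usual rules for
  unbounded `∧`, `∨` is of this kind, for some `c`;
* `IsClause`: the clauses of the pigeonhole principle with `m` pigeons and `n` holes (only totality
  and injectivity); `Refutation c A`: its refutations all of whose lines are in the class `A`;
* `IsRLine w`: the sequents of the system `R(w)`.

Idea: `n` holes and `n + n ^ (1 - δ)` pigeons are divided into `B = n ^ (1 - δ)` blocks with `κ`
holes and `κ + 1` pigeons each, `κ ≥ n ^ δ / 2 - 1`. All variables between different blocks are set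
to `0` and the blocks are identified. This turns a refutation of `PHP_n^{n + n ^ (1 - δ)}` into a
refutation of `PHP_κ^{κ+1}`, for which an exponential lower bound is proved here from scratch
(switching lemma for partial matchings, evaluation by shallow matching decision trees).
-/

namespace Pool.Agent.Results.MP_c109c8_lc.AHoldsBFails

open Pool.Agent.TH710.PHP

/-- (A) For every `d` and every `δ > 0` there is an `ε > 0` such that for all large `n` and all
`m ≤ n + n ^ (1 - δ)` every depth-`d` Frege refutation of the pigeonhole principle with `m` pigeons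
and `n` holes has size at least `exp (n ^ ε)`; in particular this holds for `m = n + ⌊√n⌋` and for
`m = n + ⌈√n⌉`, and so (A) is true.

(not B) For every function `w` (for instance polylogarithmic), every `C` and every `δ > 0`, for all
large `n` and all `m ≤ n + n ^ (1 - δ)` every refutation in the system `R(w)` of the pigeonhole
principle with `m` pigeons and `n` holes has size larger than `n ^ (C log n)`; so (B) is false. -/
theorem result (c : ℕ) :
    (∀ (d : ℕ) (δ : ℝ), 0 < δ → ∃ ε : ℝ, 0 < ε ∧ ∃ n₀ : ℕ, ∀ n m : ℕ, n₀ ≤ n →
      (m : ℝ) ≤ n + (n : ℝ) ^ (1 - δ) →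
      ∀ R : Refutation c (fun φ : Fm (Fin m × Fin n) => φ.depth ≤ d),
        Real.exp ((n : ℝ) ^ ε) ≤ R.size) ∧
    (∀ (w : ℕ → ℕ) (C δ : ℝ), 0 < δ → ∃ n₀ : ℕ, ∀ n m : ℕ, n₀ ≤ n →
      (m : ℝ) ≤ n + (n : ℝ) ^ (1 - δ) →
      ∀ R : Refutation c (fun φ : Fm (Fin m × Fin n) => IsRLine (w n) φ),
        (n : ℝ) ^ (C * Real.log n) < R.size) := by
  constructor
  · intro d δ hδ
    obtain ⟨ε, hε, n₀, h⟩ := lower_exp c d δ hδ
    exact ⟨ε, hε, n₀, fun n m hn hm R => h n m hn hm _ (fun φ hφ => hφ) R⟩
  · intro w C δ hδ
    obtain ⟨ε, hε, n₀, h⟩ := lower_exp c 2 δ hδ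
    obtain ⟨n₁, h1⟩ := quasi_lt C ε hε
    refine ⟨max n₀ n₁, fun n m hn hm R => ?_⟩
    exact (h1 n ((le_max_right _ _).trans hn)).trans_le
      (h n m ((le_max_left _ _).trans hn) hm _ (fun φ hφ => rline_depth hφ) R)

end Pool.Agent.Results.MP_c109c8_lc.AHoldsBFails
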